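import Pool.Agent.V5helper51.ML.Stm
import Pool.Agent.V5helper62.MT.MV

/-!
# Job MVL of project ML: the mean value over a cube of polynomials, `l < k` summands
-/

set_option autoImplicit false

open Finset MeasureTheory

namespace Pool.Agent.V5helper18.ML

open Pool.Agent.V5helper51.MT (a cube blk g S_PR)
open Pool.Agent.V5helper51.ML (boxl S_SEPL S_CNTL S_MVL)
open Pool.Agent.V5helper62.MT (cube_eq vol_cube vol_cube_ne)

/-- differences of the lower power sums -/
def hh (k : ℕ) {l : ℕ} (x y : Fin l → ℕ) (j : Fin (k - 1)) : ℤ :=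
  ∑ i, ((x i : ℤ) ^ ((j : ℕ) + 1) - (y i : ℤ) ^ ((j : ℕ) + 1))

/-- difference of the top power sums -/
def ht (k : ℕ) {l : ℕ} (x y : Fin l → ℕ) : ℤ := ∑ i, ((x i : ℤ) ^ k - (y i : ℤ) ^ k)

/-- size of the lower power sums -/
def DD (k : ℕ) {l : ℕ} (x y : Fin l → ℕ) : ℕ := max 1 (univ.sup fun j => (hh k x y j).natAbs)

/-- the polynomials of the cube for which the pair is a solution -/
def EE (k q A : ℕ) {l : ℕ} (x y : Fin l → ℕ) : Set (Fin (k - 1) → ℝ) :=
  {α | α ∈ cube k A ∧ ∑ i, a k q α (x i) = ∑ i, a k q α (y i)}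

lemma one_le_DD {k l : ℕ} (x y : Fin l → ℕ) : 1 ≤ DD k x y := le_max_left _ _

lemma hh_le_DD {k l : ℕ} (x y : Fin l → ℕ) (j : Fin (k - 1)) :
    |(hh k x y j : ℝ)| ≤ DD k x y := by
  have h1 : (hh k x y j).natAbs ≤ DD k x y :=
    (Finset.le_sup (f := fun j => (hh k x y j).natAbs) (Finset.mem_univ j)).trans
      (le_max_right _ _)
  have h2 : |(hh k x y j : ℝ)| = ((hh k x y j).natAbs : ℝ) := by
    rw [Nat.cast_natAbs, Int.cast_abs]
  rw [h2]
  exact_mod_cast h1

lemma DD_cases {k l : ℕ} (hk : 2 ≤ k) (x y : Fin l → ℕ) :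
    DD k x y = 1 ∨ ∃ j, hh k x y j ≠ 0 ∧ (DD k x y : ℝ) = |(hh k x y j : ℝ)| := by
  obtain ⟨j, -, hj⟩ := Finset.exists_mem_eq_sup (univ : Finset (Fin (k - 1)))
    ⟨⟨0, by omega⟩, Finset.mem_univ _⟩ (fun j => (hh k x y j).natAbs)
  unfold DD
  rw [hj]
  rcases le_or_gt ((hh k x y j).natAbs) 1 with h | h
  · left
    exact max_eq_left h
  · right
    refine ⟨j, ?_, ?_⟩
    · intro h0
      simp [h0] at h
    · rw [max_eq_right h.le, Nat.cast_natAbs, Int.cast_abs]

lemma sum_g {k l : ℕ} (α : Fin (k - 1) → ℝ) (z : Fin l → ℕ) :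
    ∑ i, g k α (z i) = ∑ j, α j * ∑ i, (z i : ℝ) ^ ((j : ℕ) + 1) := by
  simp only [g, Finset.mul_sum]
  exact Finset.sum_comm

lemma eq_imp {k q l : ℕ} (hq : 1 ≤ q) (α : Fin (k - 1) → ℝ) (x y : Fin l → ℕ)
    (h : ∑ i, a k q α (x i) = ∑ i, a k q α (y i)) :
    |(ht k x y : ℝ) / q + ∑ j, α j * (hh k x y j : ℝ)| ≤ l := by
  have hq' : (0 : ℝ) < q := by exact_mod_cast hq
  have h1 : ∑ i, ((x i : ℝ) ^ k + q * (⌊g k α (x i)⌋ : ℝ)) =
      ∑ i, ((y i : ℝ) ^ k + q * (⌊g k α (y i)⌋ : ℝ)) := by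
    have := congrArg (fun z : ℤ => (z : ℝ)) h
    simp only [a] at this
    push_cast at this
    exact this
  rw [Finset.sum_add_distrib, Finset.sum_add_distrib, ← Finset.mul_sum, ← Finset.mul_sum] at h1
  have h2 : (ht k x y : ℝ) = ∑ i, (x i : ℝ) ^ k - ∑ i, (y i : ℝ) ^ k := by
    simp only [ht]
    push_cast
    rw [Finset.sum_sub_distrib]
  have h3 : ∑ j, α j * (hh k x y j : ℝ) = ∑ i, g k α (x i) - ∑ i, g k α (y i) := by
    rw [sum_g, sum_g, ← Finset.sum_sub_distrib]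
    refine Finset.sum_congr rfl fun j _ => ?_
    simp only [hh]
    push_cast
    rw [Finset.sum_sub_distrib]
    ring
  have h4 : (ht k x y : ℝ) / q = ∑ i, (⌊g k α (y i)⌋ : ℝ) - ∑ i, (⌊g k α (x i)⌋ : ℝ) := by
    rw [div_eq_iff hq'.ne', h2]
    linarith
  have h5 : (ht k x y : ℝ) / q + ∑ j, α j * (hh k x y j : ℝ) =
      ∑ i : Fin l, (Int.fract (g k α (x i)) - Int.fract (g k α (y i))) := by
    rw [h4, h3]
    simp only [Int.fract, Finset.sum_sub_distrib]
    ring
  rw [h5]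
  calc |∑ i : Fin l, (Int.fract (g k α (x i)) - Int.fract (g k α (y i)))| ≤
        ∑ i : Fin l, |Int.fract (g k α (x i)) - Int.fract (g k α (y i))| :=
        Finset.abs_sum_le_sum_abs _ _
    _ ≤ ∑ i : Fin l, (1 : ℝ) := Finset.sum_le_sum fun i _ => by
        rw [abs_le]
        have a1 := Int.fract_nonneg (g k α (x i))
        have a2 := (Int.fract_lt_one (g k α (x i))).le
        have b1 := Int.fract_nonneg (g k α (y i))
        have b2 := (Int.fract_lt_one (g k α (y i))).le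
        constructor <;> linarith
    _ = l := by simp

lemma vol_le (hPR : S_PR) {k q A l : ℕ} (hk2 : 2 ≤ k) (hl : l < k) (hl1 : 1 ≤ l) (hq : 1 ≤ q)
    (hA : 1 ≤ A) (x y : Fin l → ℕ) :
    volume.real (EE k q A x y) ≤ ((2 * (A : ℝ)) ^ (k - 1) * (2 * k)) / DD k x y := by
  have hA' : (1 : ℝ) ≤ A := by exact_mod_cast hA
  have hk' : (2 : ℝ) ≤ k := by exact_mod_cast hk2
  have hl' : (l : ℝ) ≤ k := by exact_mod_cast hl.le
  have hD : (1 : ℝ) ≤ DD k x y := by exact_mod_cast one_le_DD x y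
  rcases DD_cases hk2 x y with h | ⟨j, hj0, hj⟩
  · rw [h, Nat.cast_one, div_one]
    calc volume.real (EE k q A x y) ≤ volume.real (cube k A) :=
          measureReal_mono (fun α hα => hα.1) (vol_cube_ne k A)
      _ = (2 * (A : ℝ)) ^ (k - 1) := vol_cube k A
      _ ≤ (2 * (A : ℝ)) ^ (k - 1) * (2 * k) :=
          le_mul_of_one_le_right (by positivity) (by linarith)
  · have h1 := hPR k A hk2 hA (hh k x y) j hj0 ((ht k x y : ℝ) / q) l (Nat.cast_nonneg _)
    rw [← hj] at h1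
    calc volume.real (EE k q A x y) ≤ volume.real {α : Fin (k - 1) → ℝ | α ∈ cube k A ∧
            |(ht k x y : ℝ) / q + ∑ i, α i * (hh k x y i : ℝ)| ≤ l} :=
          measureReal_mono (fun α hα => ⟨hα.1, eq_imp hq α x y hα.2⟩)
            (ne_top_of_le_ne_top (vol_cube_ne k A) (measure_mono fun α hα => hα.1))
      _ ≤ (2 * (A : ℝ)) ^ (k - 2) * (2 * l / DD k x y) := h1
      _ ≤ (2 * (A : ℝ)) ^ (k - 1) * (2 * k / DD k x y) := by
        apply mul_le_mul _ _ (by positivity) (by positivity)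
        · exact pow_le_pow_right₀ (by linarith) (by omega)
        · exact div_le_div_of_nonneg_right (by linarith) (by positivity)
      _ = ((2 * (A : ℝ)) ^ (k - 1) * (2 * k)) / DD k x y := by
        rw [mul_div_assoc ((2 * (A : ℝ)) ^ (k - 1))]

lemma ht_le {k q A l : ℕ} (hl : l < k) (hq : 1 ≤ q) (x y : Fin l → ℕ)
    (hne : (EE k q A x y).Nonempty) :
    |(ht k x y : ℝ)| ≤ q * k * (1 + A) * DD k x y := by
  obtain ⟨α, hα, he⟩ := hne
  have h1 := eq_imp hq α x y he
  have hl' : (l : ℝ) ≤ k := by exact_mod_cast hl.le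
  have hq' : (0 : ℝ) < q := by exact_mod_cast hq
  have hD : (1 : ℝ) ≤ DD k x y := by exact_mod_cast one_le_DD x y
  have h2 : |∑ j, α j * (hh k x y j : ℝ)| ≤ k * (A * DD k x y) := by
    calc |∑ j, α j * (hh k x y j : ℝ)| ≤ ∑ j : Fin (k - 1), |α j * (hh k x y j : ℝ)| :=
          Finset.abs_sum_le_sum_abs _ _
      _ ≤ ∑ j : Fin (k - 1), (A * DD k x y : ℝ) := Finset.sum_le_sum fun j _ => by
          rw [abs_mul]
          exact mul_le_mul (hα j) (hh_le_DD x y j) (abs_nonneg _) (Nat.cast_nonneg _)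
      _ = ((k - 1 : ℕ) : ℝ) * (A * DD k x y) := by simp
      _ ≤ k * (A * DD k x y) := by
          apply mul_le_mul_of_nonneg_right _ (by positivity)
          exact_mod_cast Nat.sub_le k 1
  have h3 : |(ht k x y : ℝ) / q| ≤ k + k * (A * DD k x y) := by
    rw [abs_le] at h1 h2 ⊢
    constructor <;> linarith [h1.1, h1.2, h2.1, h2.2]
  rw [abs_div, abs_of_pos hq', div_le_iff₀ hq'] at h3
  have hk0 : (0 : ℝ) ≤ k := Nat.cast_nonneg _
  have h4 : (k : ℝ) ≤ k * DD k x y := le_mul_of_one_le_right hk0 hD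
  calc |(ht k x y : ℝ)| ≤ (k + k * (A * DD k x y)) * q := h3
    _ ≤ (k * DD k x y + k * (A * DD k x y)) * q :=
        mul_le_mul_of_nonneg_right (by linarith) hq'.le
    _ = q * k * (1 + A) * DD k x y := by ring

lemma box_le {l P : ℕ} {x : Fin l → ℕ} (hx : x ∈ boxl l P) (i : Fin l) :
    x i ≤ (2 * l + 1) * P := by
  have h1 := Fintype.mem_piFinset.1 hx i
  rw [blk, Finset.mem_Icc] at h1
  refine h1.2.trans (Nat.mul_le_mul_right _ ?_)
  have := i.2
  omega

lemma DD_le {k l P : ℕ} (hl : l < k) (hP : 2 ≤ P) {x y : Fin l → ℕ} (hx : x ∈ boxl l P)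
    (hy : y ∈ boxl l P) : DD k x y ≤ P ^ (k + (2 * k + 2) * k) := by
  have hb : ∀ z : Fin l → ℕ, z ∈ boxl l P → ∀ i, z i ≤ P ^ (2 * k + 2) := by
    intro z hz i
    calc z i ≤ (2 * l + 1) * P := box_le hz i
      _ ≤ (2 * k + 1) * P := Nat.mul_le_mul_right _ (by omega)
      _ ≤ P ^ (2 * k + 1) * P :=
          Nat.mul_le_mul_right _ ((Nat.lt_two_pow_self).le.trans (Nat.pow_le_pow_left hP _))
      _ = P ^ (2 * k + 2) := by rw [← pow_succ]
  have hP0 : 0 < P := by omega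
  have h1 : ∀ j : Fin (k - 1), (hh k x y j).natAbs ≤ P ^ (k + (2 * k + 2) * k) := by
    intro j
    have h2 : |hh k x y j| ≤ l * (P : ℤ) ^ ((2 * k + 2) * k) := by
      calc |hh k x y j| ≤
            ∑ i : Fin l, |(x i : ℤ) ^ ((j : ℕ) + 1) - (y i : ℤ) ^ ((j : ℕ) + 1)| :=
            Finset.abs_sum_le_sum_abs _ _
        _ ≤ ∑ i : Fin l, (P : ℤ) ^ ((2 * k + 2) * k) := Finset.sum_le_sum fun i _ => by
            have key : ∀ z : Fin l → ℕ, z ∈ boxl l P → (0 : ℤ) ≤ (z i : ℤ) ^ ((j : ℕ) + 1) ∧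
                (z i : ℤ) ^ ((j : ℕ) + 1) ≤ (P : ℤ) ^ ((2 * k + 2) * k) := by
              intro z hz
              refine ⟨by positivity, ?_⟩
              have : z i ^ ((j : ℕ) + 1) ≤ P ^ ((2 * k + 2) * k) := by
                calc z i ^ ((j : ℕ) + 1) ≤ (P ^ (2 * k + 2)) ^ ((j : ℕ) + 1) :=
                      Nat.pow_le_pow_left (hb z hz i) _
                  _ ≤ (P ^ (2 * k + 2)) ^ k :=
                      Nat.pow_le_pow_right (by positivity) (by have := j.2; omega)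
                  _ = P ^ ((2 * k + 2) * k) := by rw [← pow_mul]
              exact_mod_cast this
            have kx := key x hx
            have ky := key y hy
            rw [abs_le]
            constructor <;> linarith [kx.1, kx.2, ky.1, ky.2]
        _ = l * (P : ℤ) ^ ((2 * k + 2) * k) := by simp
    have h3 : (l : ℤ) ≤ (P : ℤ) ^ k := by
      have : l ≤ P ^ k := hl.le.trans ((Nat.lt_two_pow_self).le.trans (Nat.pow_le_pow_left hP _))
      exact_mod_cast this
    have h4 : |hh k x y j| ≤ (P : ℤ) ^ (k + (2 * k + 2) * k) := by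
      rw [pow_add]
      exact h2.trans (mul_le_mul_of_nonneg_right h3 (by positivity))
    have h5 : ((hh k x y j).natAbs : ℤ) ≤ (P : ℤ) ^ (k + (2 * k + 2) * k) := by
      rw [Int.natCast_natAbs]
      exact h4
    exact_mod_cast h5
  unfold DD
  exact max_le (Nat.one_le_pow _ _ (by omega)) (Finset.sup_le fun j _ => h1 j)

lemma card_boxl (l P : ℕ) : (boxl l P).card = (P + 1) ^ l := by
  show (Fintype.piFinset fun i : Fin l => blk P i).card = (P + 1) ^ l
  rw [Fintype.card_piFinset]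
  have h : ∀ i : Fin l, (blk P (i : ℕ)).card = P + 1 := by
    intro i
    unfold blk
    rw [Nat.card_Icc]
    have : (2 * (i : ℕ) + 3) * P = 2 * ((i : ℕ) + 1) * P + P := by ring
    omega
  simp [h]

open scoped Classical in
lemma fixed_x (hPR : S_PR) {k q A l : ℕ} (hk2 : 2 ≤ k) (hl : l < k) (hl1 : 1 ≤ l) (hq : 1 ≤ q)
    (hA : 1 ≤ A) {C c : ℝ} (hC : 0 < C) (hc : 0 < c) {P : ℕ} (hP : 2 ≤ P)
    (hCNT : ∀ D : ℝ, 1 ≤ D → ∀ c : ℕ → ℝ,
      (((boxl l P).filter fun x : Fin l → ℕ =>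
        ∀ j ∈ Icc 1 k, |∑ i, (x i : ℝ) ^ j - c j| ≤ D).card : ℝ) ≤ C * (1 + D / (P : ℝ) ^ (k - l)))
    {x : Fin l → ℕ} (hx : x ∈ boxl l P)
    (hSEP : ∀ y ∈ boxl l P, x ≠ y →
      ∃ j ∈ Icc 1 k, c * (P : ℝ) ^ (k - l) ≤ |∑ i, ((x i : ℝ) ^ j - (y i : ℝ) ^ j)|) :
    ∑ y ∈ (boxl l P).erase x, volume.real (EE k q A x y) ≤
      ((Nat.log 2 (P ^ (k + (2 * k + 2) * k)) : ℝ) + 1) *
        (2 * C * (1 / c + 1) * (q * k * (1 + A)) * ((2 * (A : ℝ)) ^ (k - 1) * (2 * k)) /
          (P : ℝ) ^ (k - l)) := by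
  have hA' : (1 : ℝ) ≤ A := by exact_mod_cast hA
  have hk' : (2 : ℝ) ≤ k := by exact_mod_cast hk2
  have hq' : (1 : ℝ) ≤ q := by exact_mod_cast hq
  have hP' : (2 : ℝ) ≤ P := by exact_mod_cast hP
  set Q : ℝ := (P : ℝ) ^ (k - l) with hQ
  have hQ0 : 0 < Q := by positivity
  set C₁ : ℝ := q * k * (1 + A) with hC₁
  have hC₁1 : 1 ≤ C₁ := by
    have h1 : (1 : ℝ) ≤ q * k := by nlinarith
    nlinarith
  set C₂ : ℝ := (2 * (A : ℝ)) ^ (k - 1) * (2 * k) with hC₂
  have hC₂0 : 0 ≤ C₂ := by positivity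
  set N := Nat.log 2 (P ^ (k + (2 * k + 2) * k)) with hN
  have hmaps : ∀ y ∈ (boxl l P).erase x, Nat.log 2 (DD k x y) ∈ range (N + 1) := by
    intro y hy
    rw [Finset.mem_range, Nat.lt_succ_iff]
    exact Nat.log_mono_right (DD_le hl hP hx (Finset.mem_of_mem_erase hy))
  rw [← Finset.sum_fiberwise_of_maps_to hmaps]
  have hmain : ∀ i ∈ range (N + 1),
      ∑ y ∈ (boxl l P).erase x with Nat.log 2 (DD k x y) = i, volume.real (EE k q A x y) ≤
        2 * C * (1 / c + 1) * C₁ * C₂ / Q := by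
    intro i _
    set cond : (Fin l → ℕ) → Prop := fun y =>
      ∀ j ∈ Icc 1 k, |∑ t, (y t : ℝ) ^ j - (fun j => ∑ t, (x t : ℝ) ^ j) j| ≤
        C₁ * 2 ^ (i + 1) with hcond
    have hkey : ∀ y ∈ ((boxl l P).erase x).filter (fun y => Nat.log 2 (DD k x y) = i),
        (EE k q A x y).Nonempty → cond y ∧ c * Q ≤ C₁ * 2 ^ (i + 1) := by
      intro y hy hne'
      rw [Finset.mem_filter] at hy
      have hD2 : (DD k x y : ℝ) ≤ 2 ^ (i + 1) := by
        have := Nat.lt_pow_succ_log_self (b := 2) (by norm_num) (DD k x y)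
        rw [hy.2] at this
        exact_mod_cast this.le
      have hbase : ∀ j ∈ Icc 1 k, |∑ t, (x t : ℝ) ^ j - ∑ t, (y t : ℝ) ^ j| ≤
          C₁ * 2 ^ (i + 1) := by
        intro j hj
        rw [Finset.mem_Icc] at hj
        rcases eq_or_lt_of_le hj.2 with h | h
        · have h1 := ht_le hl hq x y hne'
          have h2 : (ht k x y : ℝ) = ∑ t, (x t : ℝ) ^ k - ∑ t, (y t : ℝ) ^ k := by
            simp only [ht]
            push_cast
            rw [Finset.sum_sub_distrib]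
          rw [h, ← h2]
          exact h1.trans (mul_le_mul_of_nonneg_left hD2 (by linarith))
        · have h1 := hh_le_DD x y (⟨j - 1, by omega⟩ : Fin (k - 1))
          have h2 : (hh k x y ⟨j - 1, by omega⟩ : ℝ) =
              ∑ t, (x t : ℝ) ^ j - ∑ t, (y t : ℝ) ^ j := by
            simp only [hh]
            push_cast
            rw [Finset.sum_sub_distrib, Nat.sub_add_cancel hj.1]
          rw [← h2]
          calc _ ≤ (DD k x y : ℝ) := h1
            _ ≤ 2 ^ (i + 1) := hD2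
            _ ≤ C₁ * 2 ^ (i + 1) := le_mul_of_one_le_left (by positivity) hC₁1
      refine ⟨fun j hj => ?_, ?_⟩
      · show |∑ t, (y t : ℝ) ^ j - ∑ t, (x t : ℝ) ^ j| ≤ C₁ * 2 ^ (i + 1)
        rw [abs_sub_comm]
        exact hbase j hj
      · obtain ⟨j, hj, hjc⟩ := hSEP y (Finset.mem_of_mem_erase hy.1)
          (Finset.ne_of_mem_erase hy.1).symm
        rw [Finset.sum_sub_distrib] at hjc
        exact hjc.trans (hbase j hj)
    by_cases hbig : c * Q ≤ C₁ * 2 ^ (i + 1)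
    · have hpt : ∀ y ∈ ((boxl l P).erase x).filter (fun y => Nat.log 2 (DD k x y) = i),
          volume.real (EE k q A x y) ≤ if cond y then C₂ / 2 ^ i else 0 := by
        intro y hy
        have hy' := hy
        rw [Finset.mem_filter] at hy
        have hD1 : (2 : ℝ) ^ i ≤ DD k x y := by
          have := Nat.pow_log_le_self 2 (x := DD k x y)
            (by have := one_le_DD (k := k) x y; omega)
          rw [hy.2] at this
          exact_mod_cast this
        split_ifs with hc'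
        · refine (vol_le hPR hk2 hl hl1 hq hA x y).trans ?_
          exact div_le_div_of_nonneg_left hC₂0 (by positivity) hD1
        · have hemp : EE k q A x y = ∅ := by
            by_contra hne
            exact hc' (hkey y hy' (Set.nonempty_iff_ne_empty.2 hne)).1
          rw [hemp]
          simp
      have hcard : (((boxl l P).filter cond).card : ℝ) ≤ C * (1 + C₁ * 2 ^ (i + 1) / Q) := by
        have h1 : (1 : ℝ) ≤ C₁ * 2 ^ (i + 1) := by
          have : (1 : ℝ) ≤ 2 ^ (i + 1) := one_le_pow₀ (by norm_num)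
          nlinarith
        have h2 := hCNT (C₁ * 2 ^ (i + 1)) h1 (fun j => ∑ t, (x t : ℝ) ^ j)
        convert h2 using 3
        ext z
        simp only [Finset.mem_filter, hcond]
      have hone : 1 ≤ (1 / c) * (C₁ * 2 ^ (i + 1) / Q) := by
        rw [one_div, ← div_eq_inv_mul, div_div, le_div_iff₀ (by positivity), one_mul, mul_comm Q c]
        exact hbig
      calc ∑ y ∈ (boxl l P).erase x with Nat.log 2 (DD k x y) = i,
              volume.real (EE k q A x y) ≤
            ∑ y ∈ (boxl l P).erase x with Nat.log 2 (DD k x y) = i,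
              (if cond y then C₂ / 2 ^ i else 0) :=
            Finset.sum_le_sum hpt
        _ ≤ ∑ y ∈ boxl l P, (if cond y then C₂ / 2 ^ i else 0) :=
            Finset.sum_le_sum_of_subset_of_nonneg
              ((Finset.filter_subset _ _).trans (Finset.erase_subset _ _))
              (fun y _ _ => by split_ifs <;> positivity)
        _ = (((boxl l P).filter cond).card : ℝ) * (C₂ / 2 ^ i) := by
            rw [← Finset.sum_filter, Finset.sum_const, nsmul_eq_mul]
        _ ≤ (C * (1 + C₁ * 2 ^ (i + 1) / Q)) * (C₂ / 2 ^ i) :=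
            mul_le_mul_of_nonneg_right hcard (by positivity)
        _ ≤ (C * ((1 / c) * (C₁ * 2 ^ (i + 1) / Q) + C₁ * 2 ^ (i + 1) / Q)) * (C₂ / 2 ^ i) := by
            apply mul_le_mul_of_nonneg_right _ (by positivity)
            apply mul_le_mul_of_nonneg_left _ hC.le
            linarith
        _ = 2 * C * (1 / c + 1) * C₁ * C₂ / Q := by
            rw [pow_succ]
            field_simp
    · have hzero : ∑ y ∈ (boxl l P).erase x with Nat.log 2 (DD k x y) = i,
          volume.real (EE k q A x y) = 0 := by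
        apply Finset.sum_eq_zero
        intro y hy
        have hemp : EE k q A x y = ∅ := by
          by_contra hne
          exact hbig (hkey y hy (Set.nonempty_iff_ne_empty.2 hne)).2
        rw [hemp]
        simp
      rw [hzero]
      positivity
  calc _ ≤ ∑ i ∈ range (N + 1), (2 * C * (1 / c + 1) * C₁ * C₂ / Q) :=
        Finset.sum_le_sum hmain
    _ = ((N : ℝ) + 1) * (2 * C * (1 / c + 1) * C₁ * C₂ / Q) := by simp

theorem t_MVL (hCNTL : S_CNTL) (hSEPL : S_SEPL) (hPR : S_PR) : S_MVL := by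
  intro k l q A hl1 hl hq hA
  have hk2 : 2 ≤ k := by omega
  obtain ⟨C, hC, hcnt⟩ := hCNTL k l hl1 hl
  obtain ⟨c, hc, hsep⟩ := hSEPL k l hl1 hl
  have hA' : (1 : ℝ) ≤ A := by exact_mod_cast hA
  have hk' : (2 : ℝ) ≤ k := by exact_mod_cast hk2
  have hq' : (1 : ℝ) ≤ q := by exact_mod_cast hq
  set K0 := k + (2 * k + 2) * k with hK0
  set B : ℝ := 2 * C * (1 / c + 1) * (q * k * (1 + A)) * ((2 * (A : ℝ)) ^ (k - 1) * (2 * k))
    with hB
  have hBpos : 0 < B := by positivity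
  have hlog2 : 0 < Real.log 2 := Real.log_pos (by norm_num)
  refine ⟨2 ^ l * (((K0 : ℝ) + 1) / Real.log 2) * B, by positivity, ?_⟩
  intro P hP
  have hP' : (2 : ℝ) ≤ P := by exact_mod_cast hP
  have hlogP : Real.log 2 ≤ Real.log P := Real.log_le_log (by norm_num) hP'
  have hQ0 : 0 < (P : ℝ) ^ (k - l) := by positivity
  have hN : (Nat.log 2 (P ^ K0) : ℝ) + 1 ≤ ((K0 : ℝ) + 1) / Real.log 2 * Real.log P := by
    have h1 : 2 ^ (Nat.log 2 (P ^ K0)) ≤ P ^ K0 :=
      Nat.pow_log_le_self 2 (pow_ne_zero _ (by omega))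
    have h2 : ((2 : ℝ)) ^ (Nat.log 2 (P ^ K0)) ≤ (P : ℝ) ^ K0 := by exact_mod_cast h1
    have h3 := Real.log_le_log (by positivity) h2
    rw [Real.log_pow, Real.log_pow] at h3
    rw [div_mul_eq_mul_div, le_div_iff₀ hlog2]
    linarith
  have hcard : ((boxl l P).card : ℝ) ≤ 2 ^ l * (P : ℝ) ^ l := by
    rw [card_boxl, ← mul_pow]
    push_cast
    exact pow_le_pow_left₀ (by positivity) (by linarith) l
  calc ∑ x ∈ boxl l P, ∑ y ∈ (boxl l P).erase x, volume.real {α : Fin (k - 1) → ℝ |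
          α ∈ cube k A ∧ ∑ i, a k q α (x i) = ∑ i, a k q α (y i)} ≤
        ∑ x ∈ boxl l P, ((Nat.log 2 (P ^ K0) : ℝ) + 1) * (B / (P : ℝ) ^ (k - l)) :=
        Finset.sum_le_sum fun x hx => fixed_x hPR hk2 hl hl1 hq hA hC hc hP
          (hcnt P (by omega)) hx (fun y hy => hsep P (by omega) x hx y hy)
    _ = ((boxl l P).card : ℝ) * (((Nat.log 2 (P ^ K0) : ℝ) + 1) * (B / (P : ℝ) ^ (k - l))) := by
        rw [Finset.sum_const, nsmul_eq_mul]
    _ ≤ (2 ^ l * (P : ℝ) ^ l) *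
          ((((K0 : ℝ) + 1) / Real.log 2 * Real.log P) * (B / (P : ℝ) ^ (k - l))) := by
        apply mul_le_mul hcard _ (by positivity) (by positivity)
        exact mul_le_mul_of_nonneg_right hN (by positivity)
    _ = 2 ^ l * (((K0 : ℝ) + 1) / Real.log 2) * B * (P : ℝ) ^ l / (P : ℝ) ^ (k - l) *
          Real.log P := by ring

end Pool.Agent.V5helper18.ML
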